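import Mathlib

/-!
A metrizable locally compact right topological group without right Haar measure:
the cylinder `ℝ/ℤ × ℝ` with `(h, x) (k, y) = (h + k, 2 ^ f k * x + y)`, where `f : ℝ/ℤ → ℝ` is a
nonzero (hence discontinuous) additive map.
-/

namespace Pool.Agent.Results.MP_d698c5_an.NoHaar

open MeasureTheory Set

/-- There is an additive map from the circle group to `ℝ` taking the value `1`. -/
theorem exists_wild : ∃ f : AddCircle (1 : ℝ) →+ ℝ, ∃ k, f k = 1 := by
  obtain ⟨φ, hφ, hmap⟩ := Submodule.exists_dual_map_eq_bot_of_notMem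
    (p := Submodule.span ℚ {(1 : ℝ)}) (x := Real.sqrt 2) (by
      intro h
      obtain ⟨q, hq⟩ := Submodule.mem_span_singleton.1 h
      have h2 : Irrational (Real.sqrt 2) := irrational_sqrt_two
      apply h2
      refine ⟨q, ?_⟩
      rw [← hq, Rat.smul_def, mul_one]) inferInstance
  have h1 : φ 1 = 0 := by
    have hm : φ 1 ∈ (Submodule.span ℚ {(1 : ℝ)}).map φ :=
      Submodule.mem_map_of_mem (Submodule.mem_span_singleton_self 1)
    rw [hmap] at hm
    simpa using hm
  let ψ : ℝ →+ ℝ :=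
    { toFun := fun x => ((φ x / φ (Real.sqrt 2) : ℚ) : ℝ)
      map_zero' := by simp
      map_add' := by
        intro x y
        rw [map_add, add_div]
        push_cast
        rfl }
  have hψ1 : ψ 1 = 0 := by
    change ((φ 1 / φ (Real.sqrt 2) : ℚ) : ℝ) = 0
    rw [h1]; simp
  have hle : AddSubgroup.zmultiples (1 : ℝ) ≤ ψ.ker := by
    rw [AddSubgroup.zmultiples_le]
    exact hψ1
  refine ⟨QuotientAddGroup.lift _ ψ hle, ((Real.sqrt 2 : ℝ) : AddCircle (1 : ℝ)), ?_⟩
  change ((φ (Real.sqrt 2) / φ (Real.sqrt 2) : ℚ) : ℝ) = 1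
  rw [div_self hφ]; simp

/-- The twisted group law on the cylinder. -/
@[reducible] noncomputable def grp (f : AddCircle (1 : ℝ) →+ ℝ) :
    Group (AddCircle (1 : ℝ) × ℝ) where
  mul a b := (a.1 + b.1, (2 : ℝ) ^ (f b.1) * a.2 + b.2)
  one := (0, 0)
  inv a := (-a.1, -((2 : ℝ) ^ (f (-a.1)) * a.2))
  mul_assoc := by
    rintro ⟨a, x⟩ ⟨b, y⟩ ⟨c, z⟩
    change (a + b + c, (2 : ℝ) ^ (f c) * ((2 : ℝ) ^ (f b) * x + y) + z)
      = (a + (b + c), (2 : ℝ) ^ (f (b + c)) * x + ((2 : ℝ) ^ (f c) * y + z))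
    rw [map_add, Real.rpow_add two_pos, add_assoc]
    congr 1
    ring
  one_mul := by
    rintro ⟨a, x⟩
    change ((0 : AddCircle (1 : ℝ)) + a, (2 : ℝ) ^ (f a) * 0 + x) = (a, x)
    simp
  mul_one := by
    rintro ⟨a, x⟩
    change (a + 0, (2 : ℝ) ^ (f 0) * x + 0) = (a, x)
    simp
  inv_mul_cancel := by
    rintro ⟨a, x⟩
    change (-a + a, (2 : ℝ) ^ (f a) * (-((2 : ℝ) ^ (f (-a)) * x)) + x) = (0, 0)
    have h : (2 : ℝ) ^ (f a) * (2 : ℝ) ^ (f (-a)) = 1 := by
      rw [← Real.rpow_add two_pos, ← map_add]; simp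
    have h2 : (2 : ℝ) ^ (f a) * (-((2 : ℝ) ^ (f (-a)) * x)) + x = 0 := by
      rw [mul_neg, ← mul_assoc, h]; ring
    rw [h2, neg_add_cancel]

theorem result :
    ∃ (G : Type) (_ : Group G) (_ : TopologicalSpace G) (_ : MeasurableSpace G),
      BorelSpace G ∧ LocallyCompactSpace G ∧ TopologicalSpace.MetrizableSpace G ∧
      SecondCountableTopology G ∧ ConnectedSpace G ∧
      (∀ x : G, Continuous fun g : G => g * x) ∧
      ∀ μ : Measure G, IsFiniteMeasureOnCompacts μ →
        (∀ (g : G) (E : Set G), MeasurableSet E → μ ((fun x => x * g) '' E) = μ E) →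
        μ = 0 := by
  obtain ⟨f, k, hk⟩ := exists_wild
  have : Fact ((0 : ℝ) < 1) := ⟨one_pos⟩
  have : ConnectedSpace (AddCircle (1 : ℝ)) := by
    have : Function.Surjective (fun x : ℝ => (x : AddCircle (1 : ℝ))) :=
      QuotientAddGroup.mk_surjective
    exact this.connectedSpace continuous_quotient_mk'
  refine ⟨AddCircle (1 : ℝ) × ℝ, grp f, inferInstance, inferInstance, inferInstance,
    inferInstance, inferInstance, inferInstance, inferInstance, ?_, ?_⟩
  · rintro ⟨c, z⟩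
    change Continuous fun g : AddCircle (1 : ℝ) × ℝ => (g.1 + c, (2 : ℝ) ^ (f c) * g.2 + z)
    fun_prop
  · intro μ hμ hinv
    -- translations along the line
    have hshift : ∀ t : ℝ, μ (univ ×ˢ Ico t (t + 1)) = μ (univ ×ˢ Ico (0 : ℝ) 1) := by
      intro t
      rw [← hinv (0, t) (univ ×ˢ Ico (0 : ℝ) 1) (MeasurableSet.univ.prod measurableSet_Ico)]
      congr 1
      ext ⟨a, y⟩
      simp only [mem_prod, mem_univ, true_and, mem_Ico, mem_image, Prod.exists]
      constructor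
      · intro h
        refine ⟨a, y - t, ⟨by linarith [h.1], by linarith [h.2]⟩, ?_⟩
        change (a + 0, (2 : ℝ) ^ (f 0) * (y - t) + t) = (a, y)
        simp
      · rintro ⟨b, x, ⟨hx0, hx1⟩, h⟩
        have h' : (b + 0, (2 : ℝ) ^ (f 0) * x + t) = (a, y) := h
        simp only [add_zero, map_zero, Real.rpow_zero, one_mul, Prod.mk.injEq] at h'
        constructor <;> linarith [h'.2]
    -- the translation that doubles the line coordinate
    have hdouble : μ (univ ×ˢ Ico (0 : ℝ) 2) = μ (univ ×ˢ Ico (0 : ℝ) 1) := by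
      rw [← hinv (k, 0) (univ ×ˢ Ico (0 : ℝ) 1) (MeasurableSet.univ.prod measurableSet_Ico)]
      congr 1
      ext ⟨a, y⟩
      simp only [mem_prod, mem_univ, true_and, mem_Ico, mem_image, Prod.exists]
      constructor
      · intro h
        refine ⟨a - k, y / 2, ⟨by linarith [h.1], by linarith [h.2]⟩, ?_⟩
        change (a - k + k, (2 : ℝ) ^ (f k) * (y / 2) + 0) = (a, y)
        rw [hk, Real.rpow_one, sub_add_cancel]
        congr 1
        ring
      · rintro ⟨b, x, ⟨hx0, hx1⟩, h⟩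
        have h' : (b + k, (2 : ℝ) ^ (f k) * x + 0) = (a, y) := h
        simp only [hk, Real.rpow_one, add_zero, Prod.mk.injEq] at h'
        constructor <;> linarith [h'.2]
    have hsplit : μ (univ ×ˢ Ico (0 : ℝ) 2)
        = μ (univ ×ˢ Ico (0 : ℝ) 1) + μ (univ ×ˢ Ico (0 : ℝ) 1) := by
      have h1 : (univ : Set (AddCircle (1 : ℝ))) ×ˢ Ico (0 : ℝ) 2
          = univ ×ˢ Ico (0 : ℝ) 1 ∪ univ ×ˢ Ico (1 : ℝ) (1 + 1) := by
        rw [← prod_union, Ico_union_Ico_eq_Ico (by norm_num) (by norm_num)]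
        norm_num
      rw [h1, measure_union _ (MeasurableSet.univ.prod measurableSet_Ico), hshift 1]
      rw [Set.disjoint_left]
      rintro ⟨a, y⟩ ⟨-, h⟩ ⟨-, h'⟩
      exact absurd h.2 (not_lt.2 h'.1)
    have hfin : μ (univ ×ˢ Ico (0 : ℝ) 1) ≠ ⊤ := by
      have hc : IsCompact ((univ : Set (AddCircle (1 : ℝ))) ×ˢ Icc (0 : ℝ) 1) :=
        isCompact_univ.prod isCompact_Icc
      exact ne_top_of_le_ne_top hc.measure_lt_top.ne
        (measure_mono (prod_mono_right Ico_subset_Icc_self))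
    have hzero : μ (univ ×ˢ Ico (0 : ℝ) 1) = 0 := by
      rw [hsplit] at hdouble
      have : μ (univ ×ˢ Ico (0 : ℝ) 1) + μ (univ ×ˢ Ico (0 : ℝ) 1)
          = μ (univ ×ˢ Ico (0 : ℝ) 1) + 0 := by rw [hdouble, add_zero]
      exact (ENNReal.add_right_inj hfin).1 this
    have hcover : (univ : Set (AddCircle (1 : ℝ) × ℝ))
        = ⋃ n : ℤ, univ ×ˢ Ico (n : ℝ) (n + 1) := by
      ext ⟨a, y⟩
      simp only [mem_univ, mem_iUnion, mem_prod, true_and, mem_Ico, true_iff]
      exact ⟨⌊y⌋, Int.floor_le y, Int.lt_floor_add_one y⟩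
    rw [← Measure.measure_univ_eq_zero, hcover, measure_iUnion_null_iff]
    intro n
    rw [hshift n, hzero]

end Pool.Agent.Results.MP_d698c5_an.NoHaar
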